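import Pool.Agent.Helper58.R3.Stmts

/-!
MP_7ef5a1_co: every vertex of a leaf has a neighbour in the leaf (module SZ).
-/

set_option autoImplicit false
open Classical

namespace Pool.Agent.Helper58.R3

theorem sz_N {m : ℕ} (H : SimpleGraph (Fin m)) (v x : Fin m) : x ∈ N H v ↔ H.Adj v x := by
  unfold N
  simp

theorem sz_nb {m : ℕ} (H : SimpleGraph (Fin m)) (y : Fin m) : nb H {y} = N H y := by
  ext x
  unfold nb N
  simp only [Finset.mem_filter, Finset.mem_univ, true_and, Finset.mem_singleton, exists_eq_left]
  constructor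
  · intro h
    exact h.2
  · intro h
    exact ⟨fun e => H.loopless.irrefl y (by rw [e] at h; exact h), h⟩

theorem st_SZ : ST_SZ := by
  intro m H v0 A X L D Φ i a h l y hy
  by_contra hcon
  push Not at hcon
  have c := h.c
  have hsub : ∀ z, H.Adj y z → z ∈ D l := by
    intro z hz
    rcases c.nbL l y hy z hz with h1 | h1
    · exact absurd hz (hcon z h1)
    · exact h1
  have hD3 : (D l).card = 3 := h.D3 l ⟨y, hy⟩
  have hNsub : N H y ⊆ D l := by
    intro z hz
    exact hsub z ((sz_N H y z).1 hz)
  have hN3 : 3 ≤ (N H y).card := by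
    by_contra hlt
    push Not at hlt
    have h2 : (nb H {y}).card ≤ 2 := by
      rw [sz_nb]
      omega
    obtain ⟨z, hz1, hz2⟩ := h.out l
    rcases c.k3 {y} ⟨y, Finset.mem_singleton_self y⟩ h2 z with h3 | h3
    · rw [Finset.mem_singleton] at h3
      exact hz1 (h3 ▸ hy)
    · rw [sz_nb, sz_N] at h3
      exact hz2 (hsub z h3)
  have hND : N H y = D l := Finset.eq_of_subset_of_card_le hNsub (by omega)
  have hyD : ∀ d ∈ D l, H.Adj y d := by
    intro d hd
    rw [← hND, sz_N] at hd
    exact hd
  have hdeg : (N H y).card = 3 := by rw [hND, hD3]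
  have hmu := c.mn y hdeg
  obtain ⟨d0, hd0⟩ : (D l).Nonempty := by
    rw [← Finset.card_pos]
    omega
  -- the vertices dominating `y` are in `L l`
  have hdom : ∀ w, (∀ u, H.Adj y u → H.Adj w u) → w ∈ L l := by
    intro w hw
    have hwD : ∀ d ∈ D l, H.Adj w d := fun d hd => hw d (hyD d hd)
    have hwX : w ∉ X := fun hX => c.ind w hX d0 (c.DX l d0 hd0) (hwD d0 hd0)
    obtain ⟨l', hl'⟩ := (c.cov w).resolve_left hwX
    have hDD : D l ⊆ D l' := by
      intro d hd
      rcases c.nbL l' w hl' d (hwD d hd) with h1 | h1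
      · exact absurd (c.DX l d hd) (c.LX l' d h1)
      · exact h1
    have hD3' : (D l').card = 3 := h.D3 l' ⟨w, hl'⟩
    have hE : D l = D l' := Finset.eq_of_subset_of_card_le hDD (by omega)
    have hll : l = l' := c.dst l l' hD3 hE
    rw [hll]
    exact hl'
  -- the image of `D l`
  have himg : (D l).image (Φ l) = N H v0 := by
    apply Finset.eq_of_subset_of_card_le
    · intro u hu
      obtain ⟨d, hd, rfl⟩ := Finset.mem_image.1 hu
      rw [sz_N]
      exact c.ΦD l d hd
    · rw [c.deg, Finset.card_image_of_injOn, hD3]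
      intro x hx x' hx' e
      exact c.inj l x (Finset.mem_union_right _ (Finset.mem_coe.1 hx)) x'
        (Finset.mem_union_right _ (Finset.mem_coe.1 hx')) e
  have hcard : (insert y (Finset.univ.filter
      (fun w => w ≠ y ∧ ∀ u, H.Adj y u → H.Adj w u))).card ≤ mu H v0 := by
    unfold mu
    apply Finset.card_le_card_of_injOn (Φ l)
    · intro w hw
      have hw' := Finset.mem_coe.1 hw
      have hw2 : ∀ u, H.Adj y u → H.Adj w u := by
        rcases Finset.mem_insert.1 hw' with h1 | h1
        · rw [h1]
          exact fun u hu => hu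
        · exact (Finset.mem_filter.1 h1).2.2
      have hwL := hdom w hw2
      rw [Finset.mem_coe, Finset.mem_filter]
      refine ⟨Finset.mem_univ _, (c.ΦL l w hwL).1, ?_⟩
      intro u hu
      rw [← sz_N, ← himg] at hu
      obtain ⟨d, hd, rfl⟩ := Finset.mem_image.1 hu
      exact c.hom l w (Finset.mem_union_left _ hwL) d (Finset.mem_union_right _ hd)
        (hw2 d (hyD d hd))
    · intro w hw w' hw' e
      have key : ∀ v, v ∈ (insert y (Finset.univ.filter
          (fun w => w ≠ y ∧ ∀ u, H.Adj y u → H.Adj w u))) → v ∈ L l := by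
        intro v hv
        apply hdom
        rcases Finset.mem_insert.1 hv with h1 | h1
        · rw [h1]
          exact fun u hu => hu
        · exact (Finset.mem_filter.1 h1).2.2
      exact c.inj l w (Finset.mem_union_left _ (key w (Finset.mem_coe.1 hw))) w'
        (Finset.mem_union_left _ (key w' (Finset.mem_coe.1 hw'))) e
  rw [Finset.card_insert_of_notMem (by simp)] at hcard
  have : (Finset.univ.filter (fun w => w ≠ y ∧ ∀ u, H.Adj y u → H.Adj w u)).card = mu H y := rfl
  omega

end Pool.Agent.Helper58.R3
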